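import Pool.Agent.helper44.AX.SpecA

/-!
# Project AX (MP_2e0e07_nt), row ax:NUL
-/

set_option autoImplicit false

namespace Pool.Agent.AX

open Matrix Polynomial Topology Filter Pool.Agent.GO Pool.Agent.AR Pool.Agent.RG Pool.Agent.HZ
  Pool.Agent.DS Pool.Agent.FLD MeasureTheory NumberField

theorem NUL_trace {Ω : Type} [Field Ω] (M : Matrix (Fin 2) (Fin 2) Ω)
    (h : ∀ X : Matrix (Fin 2) (Fin 2) Ω, (M * X).trace = 0) : M = 0 := by
  have h00 := h !![1, 0; 0, 0]
  have h01 := h !![0, 0; 1, 0]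
  have h10 := h !![0, 1; 0, 0]
  have h11 := h !![0, 0; 0, 1]
  simp only [Matrix.trace_fin_two, Matrix.mul_apply, Fin.sum_univ_two, Matrix.of_apply,
    Matrix.cons_val_zero, Matrix.cons_val_one, Matrix.cons_val', Matrix.cons_val_fin_one,
    mul_one, mul_zero, add_zero, zero_add] at h00 h01 h10 h11
  ext i j
  fin_cases i <;> fin_cases j
  · exact h00
  · exact h01
  · exact h10
  · exact h11

theorem NUL_det {Γ Ω : Type} [Group Γ] [Field Ω] (ρ : Γ →* Matrix (Fin 2) (Fin 2) Ω) (g : Γ) :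
    (ρ g).det ≠ 0 := by
  intro h
  have h1 := congrArg Matrix.det (hom_mul_inv' ρ g)
  rw [Matrix.det_mul, h, zero_mul, Matrix.det_one] at h1
  exact zero_ne_one h1

theorem NUL_null {Γ : Type} [Group Γ] [TopologicalSpace Γ] [IsTopologicalGroup Γ]
    [CompactSpace Γ] [MeasurableSpace Γ] [BorelSpace Γ] (μ : Measure Γ) [μ.IsHaarMeasure]
    {Ω : Type} [Field Ω] [IsAlgClosed Ω] [TopologicalSpace Ω] [IsTopologicalRing Ω]
    [T2Space Ω] (ρ : Γ →* Matrix (Fin 2) (Fin 2) Ω) (hρ : Continuous ρ) (hSI : SI ρ)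
    (M : Matrix (Fin 2) (Fin 2) Ω) (hM : M ≠ 0) : μ {g | (M * ρ g).trace = 0} = 0 := by
  classical
  by_contra hpos
  have hft : Algebra.FiniteType Ω (alg ρ) := finiteType_alg ρ
  have hnoeth : IsNoetherianRing (alg ρ) := Algebra.FiniteType.isNoetherianRing Ω _
  obtain ⟨U, hUopen, hU⟩ := exists_component μ (alg ρ) (fun f hf => continuous_alg ρ hρ hf)
    (fun f hf h => alg_lt ρ h hf)
  obtain ⟨f, hf⟩ : ∃ f : Γ → Ω, f = fun g => (M * ρ g).trace := ⟨_, rfl⟩
  have hfa : f ∈ alg ρ := by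
    have h1 : f = (M 0 0) • (fun g => ρ g 0 0) + (M 0 1) • (fun g => ρ g 1 0) +
        ((M 1 0) • (fun g => ρ g 0 1) + (M 1 1) • fun g => ρ g 1 1) := by
      rw [hf]
      funext g
      simp only [Matrix.trace_fin_two, Matrix.mul_apply, Fin.sum_univ_two, Pi.add_apply,
        Pi.smul_apply, smul_eq_mul]
    rw [h1]
    exact Subalgebra.add_mem _
      (Subalgebra.add_mem _ (Subalgebra.smul_mem _ (coef_mem ρ 0 0) _)
        (Subalgebra.smul_mem _ (coef_mem ρ 1 0) _))
      (Subalgebra.add_mem _ (Subalgebra.smul_mem _ (coef_mem ρ 0 1) _)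
        (Subalgebra.smul_mem _ (coef_mem ρ 1 1) _))
  have hUfin : Finite (Γ ⧸ U) := Subgroup.quotient_finite_of_isOpen U hUopen
  have hex : ∃ y : Γ, μ ({g | f g = 0} ∩ {g | y⁻¹ * g ∈ U}) ≠ 0 := by
    by_contra hcon
    push Not at hcon
    apply hpos
    have hsub : {g | (M * ρ g).trace = 0} ⊆
        ⋃ q : Γ ⧸ U, ({g | f g = 0} ∩ {g | (q.out)⁻¹ * g ∈ U}) := by
      intro g hg
      refine Set.mem_iUnion.mpr ⟨QuotientGroup.mk g, ?_, ?_⟩
      · rw [hf]
        exact hg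
      · show ((QuotientGroup.mk g : Γ ⧸ U).out)⁻¹ * g ∈ U
        rw [← QuotientGroup.eq, QuotientGroup.out_eq']
    exact measure_mono_null hsub (measure_iUnion_null fun q => hcon q.out)
  obtain ⟨y, hy⟩ := hex
  have hvan := hU f hfa y hy
  have hSIU : SI (ρ.comp U.subtype) :=
    hSI.restrict ρ U (Subgroup.finiteIndex_of_finite_quotient)
  have hspan : Submodule.span Ω (Set.range (ρ.comp U.subtype)) = ⊤ :=
    span_top_of_irred _ (SI.irred _ hSIU)
  have hall : ∀ X : Matrix (Fin 2) (Fin 2) Ω, ((M * ρ y) * X).trace = 0 := by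
    intro X
    have hX : X ∈ Submodule.span Ω (Set.range (ρ.comp U.subtype)) := by
      rw [hspan]
      exact Submodule.mem_top
    induction hX using Submodule.span_induction with
    | mem x hx =>
      obtain ⟨u, rfl⟩ := hx
      have h1 := hvan (y * u) (by rw [inv_mul_cancel_left]; exact u.2)
      rw [hf] at h1
      have h2 : (M * ρ (y * u)).trace = 0 := h1
      rw [map_mul, ← Matrix.mul_assoc] at h2
      exact h2
    | zero => rw [Matrix.mul_zero, Matrix.trace_zero]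
    | add x z _ _ hx hz => rw [Matrix.mul_add, Matrix.trace_add, hx, hz, add_zero]
    | smul c x _ hx => rw [Matrix.mul_smul, Matrix.trace_smul, hx, smul_zero]
  have h0 := NUL_trace _ hall
  apply hM
  calc M = M * ρ y * ρ y⁻¹ := by rw [Matrix.mul_assoc, hom_mul_inv', Matrix.mul_one]
    _ = 0 := by rw [h0, Matrix.zero_mul]

theorem NUL : NUL_stmt := by
  intro Γ _ _ _ _ _ _ μ _ Ω _ _ _ _ _ _ ρ hρ hSI a b hab
  obtain ⟨l, hl⟩ := IsAlgClosed.exists_pow_nat_eq ((ρ a).det / (ρ b).det) (n := 2) (by norm_num)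
  have hda := NUL_det ρ a
  have hdb := NUL_det ρ b
  have h1 : ρ a - l • ρ b ≠ 0 := fun h => hab l (sub_eq_zero.1 h)
  have h2 : ρ a + l • ρ b ≠ 0 := by
    intro h
    apply hab (-l)
    rw [neg_smul]
    exact eq_neg_of_add_eq_zero_left h
  have hn1 := NUL_null μ ρ hρ hSI _ h1
  have hn2 := NUL_null μ ρ hρ hSI _ h2
  refine measure_mono_null ?_ (measure_union_null hn1 hn2)
  intro g hg
  have hdg := NUL_det ρ g
  have h3 : tt ρ (a * g) = tt ρ (b * g) := hg
  unfold tt at h3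
  rw [map_mul, map_mul, Matrix.det_mul, Matrix.det_mul] at h3
  have hl' : l ^ 2 * (ρ b).det = (ρ a).det := by
    rw [hl, div_mul_cancel₀ _ hdb]
  have h4 : (ρ a * ρ g).trace ^ 2 = l ^ 2 * (ρ b * ρ g).trace ^ 2 := by
    rw [div_eq_div_iff (mul_ne_zero hda hdg) (mul_ne_zero hdb hdg)] at h3
    have h5 : (ρ b).det * (ρ g).det ≠ 0 := mul_ne_zero hdb hdg
    apply mul_right_cancel₀ h5
    rw [h3, ← hl']
    ring
  have h6 : ((ρ a * ρ g).trace - l * (ρ b * ρ g).trace) *
      ((ρ a * ρ g).trace + l * (ρ b * ρ g).trace) = 0 := by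
    linear_combination h4
  rcases mul_eq_zero.1 h6 with h7 | h7
  · left
    show ((ρ a - l • ρ b) * ρ g).trace = 0
    rw [Matrix.sub_mul, Matrix.trace_sub, Matrix.smul_mul, Matrix.trace_smul, smul_eq_mul]
    exact h7
  · right
    show ((ρ a + l • ρ b) * ρ g).trace = 0
    rw [Matrix.add_mul, Matrix.trace_add, Matrix.smul_mul, Matrix.trace_smul, smul_eq_mul]
    exact h7

end Pool.Agent.AX
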